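import Pool.Agent.Helper17.DT.Def

/-!
# DT, part R2, second half: from the Gram matrix to the vanishing sections
-/

set_option autoImplicit false
set_option linter.unusedSectionVars false

open Polynomial Finset DirectSum

namespace Pool.Agent.Helper43.DT

open Pool.Agent.Helper766_CF Pool.Agent.Helper766_CG Pool.Agent.Helper766_CH
open Pool.Agent.Helper58.CS Pool.Agent.Helper58.OP Pool.Agent.Helper58.SH Pool.Agent.Helper58.BG
open Pool.Agent.Helper58.LC Pool.Agent.Helper58.NS Pool.Agent.Helper17.DT

variable {R : Type} [CommRing R] [Algebra ℂ R] {𝒜 : ℕ → Submodule ℂ R} [GradedAlgebra 𝒜]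
  {br : R →ₗ[ℂ] R →ₗ[ℂ] R} {k : Type} [Field k] [Algebra ℂ k]

lemma det_pencil_ne {m : ℕ} (A B : Matrix (Fin m) (Fin m) k) (hdet : B.det ≠ 0) :
    (A.map Polynomial.C + (X : k[X]) • B.map Polynomial.C).det ≠ 0 := by
  intro h
  have h1 := Polynomial.coeff_det_X_add_C_card B A
  rw [add_comm, h, Polynomial.coeff_zero] at h1
  exact hdet h1.symm

theorem van_of_gram {n : ℕ} {f g : R →ₐ[ℂ] k[X]}
    (e' : Fin (2 * n) → R →ₗ[ℂ] k[X]) (hsec : ∀ l, Sec 𝒜 g (e' l))
    (A B : Matrix (Fin (2 * n)) (Fin (2 * n)) k) (hdet : B.det ≠ 0)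
    (hind : ∀ v : Fin (2 * n) → FractionRing k[X],
      (∀ r, v ⬝ᵥ (fun l => algebraMap k[X] (FractionRing k[X]) (e' l r)) = 0) → v = 0)
    (hgram : ∃ u : Fin n → Fin (2 * n) → k, LinearIndependent k u ∧ ∀ i r, ∃ p : k[X],
      (∀ d, 0 < d → (∀ l, (e' l r).natDegree ≤ d) → p.natDegree < d) ∧
      ((∀ l, (e' l r).natDegree = 0) → p = 0) ∧
      algebraMap k[X] (FractionRing k[X]) p =
      ((((A.map Polynomial.C + (X : k[X]) • B.map Polynomial.C).map
        (algebraMap k[X] (FractionRing k[X])))⁻¹).mulVec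
          (fun l => algebraMap k[X] (FractionRing k[X]) (Polynomial.C (u i l)))) ⬝ᵥ
            (fun l => algebraMap k[X] (FractionRing k[X]) (e' l r)))
    (hrev : ∀ V : R →ₗ[ℂ] k[X], Sec 𝒜 g V → ∃ W : R →ₗ[ℂ] k[X], Sec 𝒜 f W ∧ Rev 𝒜 V W) :
    ∃ w : Fin n → R →ₗ[ℂ] k[X], (∀ i, Sec 𝒜 f (w i)) ∧ (∀ i r, (w i r).coeff 0 = 0) ∧
      LinearIndependent k w := by
  classical
  obtain ⟨u, hu, hp⟩ := hgram
  choose p hp1 hp0 hpe using hp
  set ι := algebraMap k[X] (FractionRing k[X]) with hι
  have hinj : Function.Injective ι := IsFractionRing.injective k[X] (FractionRing k[X])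
  set Mι := (A.map Polynomial.C + (X : k[X]) • B.map Polynomial.C).map ι with hM
  -- the derivations
  have hWex : ∀ i, ∃ W : R →ₗ[ℂ] k[X], ∀ r, W r = p i r := by
    intro i
    refine ⟨{ toFun := p i, map_add' := ?_, map_smul' := ?_ }, fun r => rfl⟩
    · intro a b
      apply hinj
      rw [map_add, hpe, hpe, hpe, ← dotProduct_add]
      congr 1
      funext l
      rw [Pi.add_apply, map_add, map_add]
    · intro c a
      apply hinj
      rw [RingHom.id_apply, Algebra.smul_def c (p i a), map_mul, hpe, hpe, dotProduct, dotProduct,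
        Finset.mul_sum]
      refine Finset.sum_congr rfl fun l _ => ?_
      rw [map_smul, Algebra.smul_def c (e' l a), map_mul]
      ring
  choose W hW using hWex
  have hWsec : ∀ i, Sec 𝒜 g (W i) := by
    intro i
    refine ⟨⟨?_⟩, ?_⟩
    · intro a b
      rw [hW, hW, hW]
      apply hinj
      rw [map_add, map_mul, map_mul, hpe, hpe, hpe, dotProduct, dotProduct, dotProduct,
        Finset.mul_sum, Finset.mul_sum, ← Finset.sum_add_distrib]
      refine Finset.sum_congr rfl fun l _ => ?_
      rw [(hsec l).der.mul, map_add, map_mul, map_mul]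
      ring
    · intro d a ha
      rw [hW]
      rcases Nat.eq_zero_or_pos d with rfl | hd
      · rw [hp0 i a fun l => Nat.le_zero.1 ((hsec l).deg 0 a ha)]
        simp
      · exact (hp1 i a d hd fun l => (hsec l).deg d a ha).le
  have hWtop : ∀ i d, ∀ a ∈ 𝒜 d, (W i a).coeff d = 0 := by
    intro i d a ha
    rw [hW]
    rcases Nat.eq_zero_or_pos d with rfl | hd
    · rw [hp0 i a fun l => Nat.le_zero.1 ((hsec l).deg 0 a ha)]
      simp
    · exact coeff_eq_zero_of_natDegree_lt (hp1 i a d hd fun l => (hsec l).deg d a ha)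
  choose w hw hwr using fun i => hrev (W i) (hWsec i)
  refine ⟨w, hw, ?_, ?_⟩
  · intro i r
    refine hom_induction 𝒜 (P := fun r => (w i r).coeff 0 = 0) r (by simp) ?_ ?_
    · intro d a ha
      rw [← hwr i d a ha d 0 (by omega)]
      exact hWtop i d a ha
    · intro a b ha hb
      rw [map_add, coeff_add, ha, hb, add_zero]
  · rw [Fintype.linearIndependent_iff]
    intro c hc
    have hcw : ∀ r, ∑ i, c i • w i r = 0 := by
      intro r
      have := congrArg (fun φ : R →ₗ[ℂ] k[X] => φ r) hc
      simpa [LinearMap.sum_apply] using this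
    have hcW : ∀ r, ∑ i, c i • W i r = 0 := by
      intro r
      refine hom_induction 𝒜 (P := fun r => ∑ i, c i • W i r = 0) r (by simp) ?_ ?_
      · intro d a ha
        ext e
        rw [finsetSum_coeff, coeff_zero]
        rcases le_or_gt e d with hed | hed
        · have h1 := congrArg (fun q : k[X] => q.coeff (d - e)) (hcw a)
          simp only [finsetSum_coeff, coeff_zero] at h1
          rw [← h1]
          refine Finset.sum_congr rfl fun i _ => ?_
          rw [coeff_smul, coeff_smul, hwr i d a ha e (d - e) (by omega)]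
        · refine Finset.sum_eq_zero fun i _ => ?_
          rw [coeff_smul, coeff_eq_zero_of_natDegree_lt
            (lt_of_le_of_lt ((hWsec i).deg d a ha) hed), smul_zero]
      · intro a b ha hb
        simp only [map_add, smul_add, Finset.sum_add_distrib]
        rw [ha, hb, add_zero]
    set y : Fin (2 * n) → FractionRing k[X] := fun l => ι (Polynomial.C (∑ i, c i * u i l)) with hy
    have hy' : y = ∑ i, ι (Polynomial.C (c i)) • fun l => ι (Polynomial.C (u i l)) := by
      funext l
      rw [hy, Finset.sum_apply]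
      simp only [Pi.smul_apply, smul_eq_mul]
      rw [map_sum, map_sum]
      refine Finset.sum_congr rfl fun i _ => ?_
      rw [Polynomial.C_mul, map_mul]
    have hv : (Mι⁻¹).mulVec y = 0 := by
      apply hind
      intro r
      rw [hy', Matrix.mulVec_sum, sum_dotProduct]
      have h1 := congrArg ι (hcW r)
      rw [map_sum, map_zero] at h1
      rw [← h1]
      refine Finset.sum_congr rfl fun i _ => ?_
      rw [Matrix.mulVec_smul, smul_dotProduct, ← hpe, hW, Polynomial.smul_eq_C_mul, map_mul,
        smul_eq_mul]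
    have hdetι : IsUnit Mι.det := by
      rw [hM, ← RingHom.mapMatrix_apply, ← RingHom.map_det, isUnit_iff_ne_zero]
      intro h0
      exact det_pencil_ne A B hdet (hinj (by rw [h0, map_zero]))
    have hy0 : y = 0 := by
      have h1 := congrArg (fun v => Mι.mulVec v) hv
      simp only [Matrix.mulVec_mulVec, Matrix.mulVec_zero] at h1
      rwa [Matrix.mul_nonsing_inv _ hdetι, Matrix.one_mulVec] at h1
    have hcu : ∑ i, c i • u i = 0 := by
      funext l
      have h1 := congrFun hy0 l
      rw [hy] at h1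
      simp only [Pi.zero_apply] at h1
      have h2 : Polynomial.C (∑ i, c i * u i l) = 0 := hinj (by rw [h1, map_zero])
      have h3 := Polynomial.C_eq_zero.1 h2
      rw [Finset.sum_apply]
      simpa using h3
    exact fun i => Fintype.linearIndependent_iff.1 hu c hcu i

end Pool.Agent.Helper43.DT
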