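import Pool.Agent.Helper17.DT.Def

/-!
# DT, part R2, first half: the Gram matrix of the sections
-/

set_option autoImplicit false
set_option linter.unusedSectionVars false

open Polynomial Finset DirectSum

namespace Pool.Agent.Helper43.DT

open Pool.Agent.Helper766_CF Pool.Agent.Helper766_CG Pool.Agent.Helper766_CH
open Pool.Agent.Helper58.CS Pool.Agent.Helper58.OP Pool.Agent.Helper58.SH Pool.Agent.Helper58.BG
open Pool.Agent.Helper58.LC Pool.Agent.Helper58.NS Pool.Agent.Helper17.DT

variable {R : Type} [CommRing R] [Algebra ℂ R] {𝒜 : ℕ → Submodule ℂ R} [GradedAlgebra 𝒜]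
  {br : R →ₗ[ℂ] R →ₗ[ℂ] R} {k : Type} [Field k] [Algebra ℂ k]

section

variable {T : Type} [CommRing T] [Algebra ℂ T]

lemma omF_skew (P : IsPoisson br) (x : R →ₐ[ℂ] T) (L : List (R × T)) (h : R) :
    hv br x L h = -(L.map fun q => q.2 * x (br h q.1)).sum := by
  induction L with
  | nil => simp [hv]
  | cons a L ih =>
    have e1 : hv br x (a :: L) h = a.2 * x (br a.1 h) + hv br x L h := by simp [hv]
    rw [e1, ih, List.map_cons, List.sum_cons, P.skew a.1 h, map_neg]
    ring

lemma hv_skew (P : IsPoisson br) (x : R →ₐ[ℂ] T) (LV LW : List (R × T)) :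
    (LW.map fun q => q.2 * hv br x LV q.1).sum = -(LV.map fun q => q.2 * hv br x LW q.1).sum := by
  induction LW with
  | nil => simp [hv]
  | cons a L ih =>
    have e1 : ∀ r, hv br x (a :: L) r = a.2 * x (br a.1 r) + hv br x L r := by
      intro r; simp [hv]
    have e2 : (LV.map fun q => q.2 * hv br x (a :: L) q.1).sum =
        a.2 * (LV.map fun q => q.2 * x (br a.1 q.1)).sum +
          (LV.map fun q => q.2 * hv br x L q.1).sum := by
      clear ih
      induction LV with
      | nil => simp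
      | cons b LV ihV =>
        simp only [List.map_cons, List.sum_cons]
        rw [ihV, e1]
        ring
    rw [List.map_cons, List.sum_cons, ih, e2, omF_skew P x LV a.1]
    ring

lemma om_skew (P : IsPoisson br) {x : R →ₐ[ℂ] T} {V W : R →ₗ[ℂ] T} {LV LW : List (R × T)}
    (hV : ∀ r, V r = hv br x LV r) (hW : ∀ r, W r = hv br x LW r) : om V LW = - om W LV := by
  have h := hv_skew P x LV LW
  simp only [om, hV, hW]
  exact h

end

/-- evaluation at zero of the values of the symplectic form -/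
lemma om_coeff_zero {V : R →ₗ[ℂ] k[X]} {δ : R → k} (hV : ∀ r, (V r).coeff 0 = δ r)
    (L : List (R × k[X])) :
    (om V L).coeff 0 = (L.map fun q => q.2.coeff 0 * δ q.1).sum := by
  induction L with
  | nil => simp [om]
  | cons a L ih =>
    have e1 : om V (a :: L) = a.2 * V a.1 + om V L := by simp [om]
    rw [e1, coeff_add, mul_coeff_zero, hV, ih, List.map_cons, List.sum_cons]

lemma hv_coeff_zero (f : R →ₐ[ℂ] k[X]) (L : List (R × k[X])) (r : R) :
    (hv br f L r).coeff 0 =
      hv br ((ev0 k).comp f) (L.map fun q => (q.1, q.2.coeff 0)) r := by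
  induction L with
  | nil => simp [hv]
  | cons a L ih =>
    have e1 : hv br f (a :: L) r = a.2 * f (br a.1 r) + hv br f L r := by simp [hv]
    have e2 : hv br ((ev0 k).comp f) ((a :: L).map fun q => (q.1, q.2.coeff 0)) r =
        a.2.coeff 0 * (ev0 k).comp f (br a.1 r) +
          hv br ((ev0 k).comp f) (L.map fun q => (q.1, q.2.coeff 0)) r := by simp [hv]
    rw [e1, e2, coeff_add, mul_coeff_zero, ih, AlgHom.comp_apply, ev0_apply]

theorem gram_data (C : Core 𝒜 br) {n : ℕ} {f g : R →ₐ[ℂ] k[X]}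
    (hvf : ∀ V : R →ₗ[ℂ] k[X], IsDer f V → ∃ L, ∀ r, V r = hv br f L r)
    (hvg : ∀ V : R →ₗ[ℂ] k[X], IsDer g V → ∃ L, ∀ r, V r = hv br g L r)
    (δ : Fin (2 * n) → R →ₗ[ℂ] k) (hδ : ∀ l, IsDer ((ev0 k).comp f) (δ l))
    (hδi : ∀ c : Fin (2 * n) → k, (∀ r, ∑ l, c l * δ l r = 0) → c = 0)
    (hδs : ∀ δ' : R →ₗ[ℂ] k, IsDer ((ev0 k).comp f) δ' →
      ∃ c : Fin (2 * n) → k, ∀ r, δ' r = ∑ l, c l * δ l r)
    (hgen : GenAt 𝒜 f 0)
    (hrev : ∀ V : R →ₗ[ℂ] k[X], Sec 𝒜 f V → ∃ W : R →ₗ[ℂ] k[X], Sec 𝒜 g W ∧ Rev 𝒜 V W)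
    (hO2 : ∀ {V V' W W' : R →ₗ[ℂ] k[X]}, Sec 𝒜 f V → Sec 𝒜 g V' → Sec 𝒜 f W → Sec 𝒜 g W' →
      Rev 𝒜 V V' → Rev 𝒜 W W' → ∀ {L L' : List (R × k[X])}, (∀ r, W r = hv br f L r) →
      (∀ r, W' r = hv br g L' r) → (om V' L').natDegree ≤ 1 ∧
      (om V' L').coeff 1 = (om V L).coeff 0 ∧ (om V' L').coeff 0 = (om V L).coeff 1) :
    ∃ (e' : Fin (2 * n) → R →ₗ[ℂ] k[X]) (L' : Fin (2 * n) → List (R × k[X]))
      (A B : Matrix (Fin (2 * n)) (Fin (2 * n)) k), (∀ l, Sec 𝒜 g (e' l)) ∧
      (∀ l r, e' l r = hv br g (L' l) r) ∧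
      (∀ l m, om (e' l) (L' m) = Polynomial.C (A l m) + X * Polynomial.C (B l m)) ∧
      A.transpose = -A ∧ B.transpose = -B ∧ B.det ≠ 0 := by
  classical
  -- the sections
  have hex : ∀ l, ∃ V : R →ₗ[ℂ] k[X], Sec 𝒜 f V ∧ ∀ r, δ l r = (V r).coeff 0 := by
    intro l
    obtain ⟨V, hV, hVe⟩ := hgen (δ l) (by
      intro a b
      have h := (hδ l).mul a b
      rw [AlgHom.comp_apply, AlgHom.comp_apply, ev0_apply, ev0_apply] at h
      rw [h, coeff_zero_eq_eval_zero, coeff_zero_eq_eval_zero])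
    exact ⟨V, hV, fun r => by rw [hVe, coeff_zero_eq_eval_zero]⟩
  choose e he hev using hex
  choose e' he' hrr using fun l => hrev (e l) (he l)
  choose L hL using fun l => hvf (e l) (he l).der
  choose L' hL' using fun l => hvg (e' l) (he' l).der
  have hO := fun l m => hO2 (he l) (he' l) (he m) (he' m) (hrr l) (hrr m) (hL m) (hL' m)
  have hsk : ∀ l m, om (e' l) (L' m) = - om (e' m) (L' l) := fun l m =>
    om_skew C.poisson (hL' l) (hL' m)
  refine ⟨e', L', Matrix.of fun l m => (om (e' l) (L' m)).coeff 0,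
    Matrix.of fun l m => (om (e' l) (L' m)).coeff 1, he', hL', ?_, ?_, ?_, ?_⟩
  · intro l m
    simp only [Matrix.of_apply]
    have h1 := (hO l m).1
    conv_lhs => rw [Polynomial.eq_X_add_C_of_natDegree_le_one h1]
    ring
  · ext l m
    simp only [Matrix.transpose_apply, Matrix.of_apply, Matrix.neg_apply]
    rw [hsk m l, coeff_neg]
  · ext l m
    simp only [Matrix.transpose_apply, Matrix.of_apply, Matrix.neg_apply]
    rw [hsk m l, coeff_neg]
  · intro hdet
    obtain ⟨c, hc0, hc⟩ := Matrix.exists_mulVec_eq_zero_iff.2 hdet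
    apply hc0
    apply hδi
    intro h
    -- the derivation `x₀ (br h ·)`
    set x₀ : R →ₐ[ℂ] k := (ev0 k).comp f with hx₀
    obtain ⟨a, ha⟩ := hδs (x₀.toLinearMap.comp (br h)) (isDer_br C.poisson x₀ h)
    have hB : ∀ l m, (om (e' l) (L' m)).coeff 1 =
        ((L m).map fun q => q.2.coeff 0 * δ l q.1).sum := by
      intro l m
      rw [(hO l m).2.1]
      exact om_coeff_zero (fun r => (hev l r).symm) (L m)
    have hδm : ∀ m, δ m h = -∑ l, a l * (om (e' l) (L' m)).coeff 1 := by
      intro m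
      rw [hev, hL, hv_coeff_zero, omF_skew C.poisson]
      congr 1
      simp only [hB, List.map_map]
      have key : ∀ LL : List (R × k[X]),
          (LL.map ((fun q : R × k => q.2 * x₀ (br h q.1)) ∘ fun q : R × k[X] => (q.1, q.2.coeff 0))).sum =
            ∑ l, a l * (LL.map fun q => q.2.coeff 0 * δ l q.1).sum := by
        intro LL
        induction LL with
        | nil => simp
        | cons b LL ih =>
          simp only [List.map_cons, List.sum_cons, Function.comp_apply]
          rw [show (LL.map ((fun q : R × k => q.2 * x₀ (br h q.1)) ∘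
            fun q : R × k[X] => (q.1, q.2.coeff 0))).sum = _ from ih]
          have h1 : x₀ (br h b.1) = ∑ l, a l * δ l b.1 := ha b.1
          rw [h1, Finset.mul_sum, ← Finset.sum_add_distrib]
          refine Finset.sum_congr rfl fun l _ => ?_
          ring
      exact key (L m)
    have hBc : ∀ l, ∑ m, (om (e' l) (L' m)).coeff 1 * c m = 0 := by
      intro l
      have := congrFun hc l
      simpa [Matrix.mulVec, dotProduct] using this
    calc ∑ m, c m * δ m h = -∑ l, a l * ∑ m, (om (e' l) (L' m)).coeff 1 * c m := by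
          simp only [hδm, mul_neg, Finset.sum_neg_distrib, Finset.mul_sum]
          rw [Finset.sum_comm]
          congr 1
          refine Finset.sum_congr rfl fun l _ => Finset.sum_congr rfl fun m _ => ?_
          ring
      _ = 0 := by simp [hBc]

end Pool.Agent.Helper43.DT
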